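import Pool.Agent.P.MP_9e9a11_al.Final

namespace Pool.Agent.Results.MP_9e9a11_al.Cyclic

/-- The automorphism of the additive group of `V` (written multiplicatively) given by `g`. -/
def toAut {R V : Type} [CommRing R] [AddCommGroup V] [Module R V] (g : V ≃ₗ[R] V) :
    MulAut (Multiplicative V) :=
  AddEquiv.toMultiplicative g.toAddEquiv

theorem toAut_one {R V : Type} [CommRing R] [AddCommGroup V] [Module R V] :
    toAut (1 : V ≃ₗ[R] V) = 1 := rfl

theorem toAut_mul {R V : Type} [CommRing R] [AddCommGroup V] [Module R V] (g h : V ≃ₗ[R] V) :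
    toAut (g * h) = toAut g * toAut h := rfl

/-- The natural action of `GL(V)` on the additive group of `V`. -/
def actGL (R V : Type) [CommRing R] [AddCommGroup V] [Module R V] :
    (V ≃ₗ[R] V) →* MulAut (Multiplicative V) where
  toFun := toAut
  map_one' := toAut_one
  map_mul' := toAut_mul

/-- The number of conjugacy classes of the semidirect product for the action of a subgroup `G` of
`H` obtained by restricting `φ`. -/
noncomputable def semidirectClasses {N H : Type} [Group N] [Group H] (φ : H →* MulAut N)
    (G : Subgroup H) : ℕ :=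
  Nat.card (ConjClasses (N ⋊[φ.comp G.subtype] G))

/-- The number `k(VG)` of conjugacy classes of the semidirect product of `V` and `G`. -/
noncomputable def classNumber {R V : Type} [CommRing R] [AddCommGroup V] [Module R V]
    (G : Subgroup (V ≃ₗ[R] V)) : ℕ :=
  semidirectClasses (actGL R V) G

/-- The order of `G`. -/
noncomputable def order {H : Type} [Group H] (G : Subgroup H) : ℕ := Nat.card G

/-- The only invariant subspaces are zero and the whole space. -/
def Irred {R V : Type} [CommRing R] [AddCommGroup V] [Module R V]
    (G : Subgroup (V ≃ₗ[R] V)) : Prop :=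
  ∀ W : Submodule R V, (∀ g ∈ G, ∀ v ∈ W, g v ∈ W) → W = ⊥ ∨ W = ⊤

/-- An irreducible subgroup `G` of `GL(V)` of order prime to five, `V` finite-dimensional over the
field with five elements, with `k(VG) = |V|`, is cyclic. -/
theorem result (V : Type) [AddCommGroup V] [Module (ZMod 5) V] [Module.Finite (ZMod 5) V]
    (G : Subgroup (V ≃ₗ[ZMod 5] V)) (hp : ¬ 5 ∣ order G) (hirr : Irred G)
    (hk : classNumber G = Nat.card V) : IsCyclic G :=
  Pool.Agent.KGV.cyclic_of_extremal V G hp hirr hk

end Pool.Agent.Results.MP_9e9a11_al.Cyclic
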